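import Pool.Agent.H25.DP.Targets
import Pool.Agent.H92.DL.FU

/-!
# Two dilations: from local averages to smoothed averages
-/

set_option autoImplicit false

open Complex MeasureTheory Set

namespace Pool.Agent.H85.DP

open Pool.Agent.H25.DL Pool.Agent.H25.DP Pool.Agent.H92.DL

/-- Fubini for a weighted convolution-type double integral -/
lemma swap_weight (w G g : ℝ → ℂ) (a b c e R M : ℝ) (hac : a ≤ c - R) (hR : 0 ≤ R) (hce : c ≤ e)
    (heb : e + R ≤ b) (hG : ContinuousOn G (Icc a b)) (hg : Continuous g) (hw : Continuous w)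
    (hM : ∀ y, |y| ≤ R → ‖∫ u in c..e, w u * G (u + y)‖ ≤ M)
    (hgi : ∫ y in (-R)..R, ‖g y‖ ≤ 1) :
    ‖∫ u in c..e, w u * ∫ y in (-R)..R, G (u + y) * g y‖ ≤ M := by
  have hRR : -R ≤ R := by linarith
  have hM0 : 0 ≤ M := (norm_nonneg _).trans (hM 0 (by simpa using hR))
  have h0 : ∀ u : ℝ, w u * ∫ y in (-R)..R, G (u + y) * g y =
      ∫ y in (-R)..R, w u * (G (u + y) * g y) := by
    intro u
    rw [intervalIntegral.integral_const_mul]
  simp_rw [h0]
  have hsw : ∫ u in c..e, ∫ y in (-R)..R, w u * (G (u + y) * g y) =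
      ∫ y in (-R)..R, ∫ u in c..e, w u * (G (u + y) * g y) := by
    apply intervalIntegral_intervalIntegral_swap
    rw [uIoc_of_le hce, uIoc_of_le hRR]
    refine IntegrableOn.mono_set ?_ (prod_mono Ioc_subset_Icc_self Ioc_subset_Icc_self)
    apply ContinuousOn.integrableOn_compact (isCompact_Icc.prod isCompact_Icc)
    refine ContinuousOn.mul (hw.comp continuous_fst).continuousOn
      (ContinuousOn.mul ?_ (hg.comp continuous_snd).continuousOn)
    refine hG.comp (continuous_fst.add continuous_snd).continuousOn ?_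
    rintro ⟨u, y⟩ ⟨hu, hy⟩
    simp only at hu hy
    exact ⟨by linarith [hu.1, hy.1], by linarith [hu.2, hy.2]⟩
  rw [hsw]
  have h1 : ∀ y : ℝ, ∫ u in c..e, w u * (G (u + y) * g y) =
      (∫ u in c..e, w u * G (u + y)) * g y := by
    intro y
    rw [← intervalIntegral.integral_mul_const]
    refine intervalIntegral.integral_congr fun u _ => ?_
    ring
  have h2 : ‖∫ y in (-R)..R, ∫ u in c..e, w u * (G (u + y) * g y)‖ ≤
      ∫ y in (-R)..R, M * ‖g y‖ := by
    refine intervalIntegral.norm_integral_le_of_norm_le hRR ?_ ?_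
    · refine Filter.Eventually.of_forall fun y hy => ?_
      rw [h1, norm_mul]
      refine mul_le_mul_of_nonneg_right ?_ (norm_nonneg _)
      exact hM _ (abs_le.2 ⟨hy.1.le, hy.2⟩)
    · exact (continuous_const.mul hg.norm).intervalIntegrable _ _
  refine h2.trans ?_
  rw [intervalIntegral.integral_const_mul]
  calc M * ∫ y in (-R)..R, ‖g y‖ ≤ M * 1 := mul_le_mul_of_nonneg_left hgi hM0
    _ = M := mul_one M

/-- (RED) -/
theorem red : T_RED := by
  intro ι _ f Y d t₀ β hβ hY
  classical
  have ht0 := hY.one_le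
  refine ⟨max (2 * t₀) 16, fun T hT J H W M hTH hW hHW hM => ?_⟩
  have hT1 : 2 * t₀ ≤ T := (le_max_left _ _).trans hT
  have hT2 : 16 ≤ T := (le_max_right _ _).trans hT
  have hTpos : 0 < T := by linarith
  have hlogT : Real.log T ≤ T / 2 := by
    have h1 : Real.log T = 2 * Real.log (Real.sqrt T) := by
      rw [Real.log_sqrt hTpos.le]; ring
    have h2 := Real.log_le_sub_one_of_pos (Real.sqrt_pos.2 hTpos)
    have h3 : Real.sqrt T * Real.sqrt T = T := Real.mul_self_sqrt hTpos.le
    have h4 : 4 ≤ Real.sqrt T := by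
      rw [show (4 : ℝ) = Real.sqrt 16 by
        rw [show (16 : ℝ) = 4 ^ 2 by norm_num, Real.sqrt_sq (by norm_num)]]
      exact Real.sqrt_le_sqrt hT2
    rw [h1]
    nlinarith
  have hlog0 : 0 ≤ Real.log T := Real.log_nonneg (by linarith)
  have hYc : ContinuousOn (fun t : ℝ => Y (1 / 2 + t * I)) (Icc (T / 2) (3 * T)) := by
    intro t ht
    have h1 : ContinuousAt Y (1 / 2 + t * I) := by
      refine (hY.diff _ ?_).continuousAt
      simp
      linarith [ht.1]
    have h2 : ContinuousAt (fun t : ℝ => (1 / 2 + t * I : ℂ)) t := by fun_prop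
    exact (ContinuousAt.comp (f := fun t : ℝ => (1 / 2 + t * I : ℂ)) h1 h2).continuousWithinAt
  have hFc : ∀ j : ι → ℕ, ContinuousOn (fun t : ℝ => Pj f j (1 / 2 + t * I) * Y (1 / 2 + t * I))
      (Icc (T / 2) (3 * T)) := by
    intro j
    refine ContinuousOn.mul ?_ hYc
    refine Continuous.continuousOn ?_
    simp_rw [Pj_eq]
    fun_prop
  have hgc : Continuous (fun y : ℝ => gs β (y * I)) := by
    unfold gs
    fun_prop
  have hwc : Continuous (fun u : ℝ => (om ((u - H) / W) : ℂ)) := by
    refine Complex.continuous_ofReal.comp (continuous_om.comp ?_)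
    fun_prop
  set G : ℝ → ℂ := fun t => ∑ j ∈ J, Pj f j (1 / 2 + t * I) * Y (1 / 2 + t * I) with hG
  have hGc : ContinuousOn G (Icc (T / 2) (3 * T)) := by
    rw [hG]
    exact continuousOn_finsetSum _ fun j _ => hFc j
  -- the sum of the local averages
  have hKJ : ∀ u ∈ Set.uIcc H (H + W), ∑ j ∈ J, KJ f Y β (Real.log T) j u =
      ∫ y in (-Real.log T)..(Real.log T), G (u + y) * gs β (y * I) := by
    intro u hu
    rw [Set.uIcc_of_le (by linarith)] at hu
    unfold KJ
    rw [← intervalIntegral.integral_finsetSum]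
    · refine intervalIntegral.integral_congr fun y _ => ?_
      simp only [hG, Finset.sum_mul]
    · intro j _
      apply ContinuousOn.intervalIntegrable
      rw [Set.uIcc_of_le (by linarith)]
      refine ContinuousOn.mul ?_ hgc.continuousOn
      refine (hFc j).comp (f := fun y : ℝ => u + y) (by fun_prop) ?_
      intro y hy
      exact ⟨by linarith [hu.1, hy.1], by linarith [hu.2, hy.2]⟩
  have hint : ∫ u in H..(H + W), (om ((u - H) / W) : ℂ) * ∑ j ∈ J, KJ f Y β (Real.log T) j u =
      ∫ u in H..(H + W), (om ((u - H) / W) : ℂ) *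
        ∫ y in (-Real.log T)..(Real.log T), G (u + y) * gs β (y * I) := by
    refine intervalIntegral.integral_congr fun u hu => ?_
    exact congrArg _ (hKJ u hu)
  rw [hint]
  refine swap_weight (fun u : ℝ => (om ((u - H) / W) : ℂ)) G (fun y => gs β (y * I)) (T / 2)
    (3 * T) H (H + W) (Real.log T) M (by linarith) hlog0 (by linarith) (by linarith) hGc hgc hwc
    ?_ (gs_int β _ hβ hlog0)
  intro y hy
  have hAV : ∫ u in H..(H + W), (om ((u - H) / W) : ℂ) * G (u + y) =
      ∑ j ∈ J, AV f Y j H W y := by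
    unfold AV
    rw [← intervalIntegral.integral_finsetSum]
    · refine intervalIntegral.integral_congr fun u _ => ?_
      simp only [hG, Finset.mul_sum]
    · intro j _
      apply ContinuousOn.intervalIntegrable
      rw [Set.uIcc_of_le (by linarith)]
      refine ContinuousOn.mul hwc.continuousOn ?_
      have := (hFc j).comp (f := fun u : ℝ => u + y) (s := Icc H (H + W)) (by fun_prop) ?_
      · exact this
      · intro u hu
        have := abs_le.1 hy
        exact ⟨by linarith [hu.1, this.1], by linarith [hu.2, this.2]⟩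
  rw [hAV]
  exact hM y hy

end Pool.Agent.H85.DP
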