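import Pool.Agent.H25.DP.Targets3
import Pool.Agent.H25.DL.BA2
import Pool.Agent.H92.DL.FU

/-!
# Two dilations: the weighted local averages over a small set
-/

set_option autoImplicit false

open Complex MeasureTheory Set Pool.Agent.H25.DL Pool.Agent.H25.DP
open scoped ENNReal

namespace Pool.Agent.H85.DP.BX2

lemma continuous_TP (X : ℕ) (ρ : ℕ → ℂ) : Continuous (TP X ρ) := by
  unfold TP
  exact continuous_finsetSum _ fun p _ => continuous_const.mul (continuous_en p)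

lemma norm_gx (β ξ y : ℝ) : ‖gx β ξ (y * I)‖ = ‖gs β (y * I)‖ := by
  unfold gx
  rw [norm_mul]
  have h : -((y : ℂ) * I * ξ) = ((-(y * ξ) : ℝ) : ℂ) * I := by
    push_cast
    ring
  rw [h, Complex.norm_exp_ofReal_mul_I, one_mul]

/-- the general bound -/
lemma gen {P w : ℝ → ℂ} (hP : Continuous P) (hw : Continuous w) {β ξ R T M : ℝ} (hβ : 0 < β) (hR0 : 0 ≤ R)
    (hM0 : 0 ≤ M) {E : Set ℝ} (hE : MeasurableSet E) (hEs : E ⊆ Icc T (2 * T))
    (hb : ∀ y : ℝ, |y| ≤ R → ∫ u in E, ‖P (u + y)‖ * ‖w u‖ ≤ M) (G : ℝ → ℝ → ℂ)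
    (hG : ∀ u ∈ E, ∀ y ∈ Ioc (-R) R, ‖G u y‖ ≤ 2 * ‖P (u + y)‖) :
    ∫ u in E, ‖∫ y in (-R)..R, G u y * gx β ξ (y * I)‖ * ‖w u‖ ≤ 2 * M := by
  have hR : -R ≤ R := by linarith
  have hgc : Continuous fun y : ℝ => gs β (y * I) := by
    unfold gs
    fun_prop
  have hgi : ∫⁻ y in Ioc (-R) R, ‖gs β (y * I)‖ₑ ≤ 1 := by
    have h1 : IntegrableOn (fun y : ℝ => gs β (y * I)) (Ioc (-R) R) volume :=
      (hgc.continuousOn.integrableOn_compact isCompact_Icc).mono_set Ioc_subset_Icc_self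
    rw [← ofReal_integral_norm_eq_lintegral_enorm h1]
    have h2 := Pool.Agent.H92.DL.gs_int β R hβ hR0
    rw [intervalIntegral.integral_of_le hR] at h2
    calc _ ≤ ENNReal.ofReal 1 := ENNReal.ofReal_le_ofReal h2
      _ = 1 := ENNReal.ofReal_one
  have hHol : ∀ y : ℝ, |y| ≤ R → ∫⁻ u in E, ‖P (u + y)‖ₑ * ‖w u‖ₑ ≤ ENNReal.ofReal M := by
    intro y hy
    have hcont : Continuous fun u : ℝ => P (u + y) * w u :=
      (hP.comp (continuous_id.add (continuous_const (y := y)))).mul hw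
    have hint : IntegrableOn (fun u : ℝ => P (u + y) * w u) E volume :=
      (hcont.continuousOn.integrableOn_compact isCompact_Icc).mono_set hEs
    have h1 := ofReal_integral_norm_eq_lintegral_enorm hint
    simp only [enorm_mul, norm_mul] at h1
    rw [← h1]
    exact ENNReal.ofReal_le_ofReal (hb y hy)
  have hPc2 : Continuous fun q : ℝ × ℝ => P (q.1 + q.2) := hP.comp (continuous_fst.add continuous_snd)
  have hmain : ∫⁻ u in E, ‖∫ y in (-R)..R, G u y * gx β ξ (y * I)‖ₑ * ‖w u‖ₑ ≤ ENNReal.ofReal (2 * M) := by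
    have h1 : ∀ u ∈ E, ‖∫ y in (-R)..R, G u y * gx β ξ (y * I)‖ₑ * ‖w u‖ₑ ≤
        ∫⁻ y in Ioc (-R) R, 2 * ‖gs β (y * I)‖ₑ * (‖P (u + y)‖ₑ * ‖w u‖ₑ) := by
      intro u hu
      rw [intervalIntegral.integral_of_le hR]
      have h2 : ‖∫ y in Ioc (-R) R, G u y * gx β ξ (y * I)‖ₑ ≤
          ∫⁻ y in Ioc (-R) R, 2 * ‖gs β (y * I)‖ₑ * ‖P (u + y)‖ₑ := by
        refine (enorm_integral_le_lintegral_enorm _).trans ?_
        refine setLIntegral_mono' measurableSet_Ioc fun y hy => ?_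
        rw [enorm_mul]
        have h3 : ‖gx β ξ (y * I)‖ₑ = ‖gs β (y * I)‖ₑ := by
          rw [← ofReal_norm, ← ofReal_norm, norm_gx]
        have h4 : ‖G u y‖ₑ ≤ 2 * ‖P (u + y)‖ₑ := by
          rw [← ofReal_norm, ← ofReal_norm]
          calc ENNReal.ofReal ‖G u y‖ ≤ ENNReal.ofReal (2 * ‖P (u + y)‖) :=
                ENNReal.ofReal_le_ofReal (hG u hu y hy)
            _ = 2 * ENNReal.ofReal ‖P (u + y)‖ := by
                rw [ENNReal.ofReal_mul (by norm_num), ENNReal.ofReal_ofNat]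
        rw [h3]
        calc ‖G u y‖ₑ * ‖gs β (y * I)‖ₑ ≤ 2 * ‖P (u + y)‖ₑ * ‖gs β (y * I)‖ₑ := by gcongr
          _ = 2 * ‖gs β (y * I)‖ₑ * ‖P (u + y)‖ₑ := by ring
      calc ‖∫ y in Ioc (-R) R, G u y * gx β ξ (y * I)‖ₑ * ‖w u‖ₑ
          ≤ (∫⁻ y in Ioc (-R) R, 2 * ‖gs β (y * I)‖ₑ * ‖P (u + y)‖ₑ) * ‖w u‖ₑ := by gcongr
        _ = ∫⁻ y in Ioc (-R) R, 2 * ‖gs β (y * I)‖ₑ * ‖P (u + y)‖ₑ * ‖w u‖ₑ := by
            rw [lintegral_mul_const']
            exact enorm_ne_top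
        _ = ∫⁻ y in Ioc (-R) R, 2 * ‖gs β (y * I)‖ₑ * (‖P (u + y)‖ₑ * ‖w u‖ₑ) := by
            refine lintegral_congr fun y => ?_
            rw [mul_assoc]
    calc ∫⁻ u in E, ‖∫ y in (-R)..R, G u y * gx β ξ (y * I)‖ₑ * ‖w u‖ₑ
        ≤ ∫⁻ u in E, ∫⁻ y in Ioc (-R) R, 2 * ‖gs β (y * I)‖ₑ * (‖P (u + y)‖ₑ * ‖w u‖ₑ) :=
          setLIntegral_mono' hE h1
      _ = ∫⁻ y in Ioc (-R) R, ∫⁻ u in E, 2 * ‖gs β (y * I)‖ₑ * (‖P (u + y)‖ₑ * ‖w u‖ₑ) := by
          refine lintegral_lintegral_swap ?_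
          have h4 : Continuous fun q : ℝ × ℝ => (2 : ℝ≥0∞) * ‖gs β (q.2 * I)‖ₑ := by
            have h5 : Continuous fun q : ℝ × ℝ => ‖gs β (q.2 * I)‖ₑ :=
              (hgc.comp continuous_snd).enorm
            exact ENNReal.continuous_const_mul (by norm_num) |>.comp h5
          exact (h4.measurable.mul
            (hPc2.enorm.measurable.mul (hw.comp continuous_fst).enorm.measurable)).aemeasurable
      _ = ∫⁻ y in Ioc (-R) R, 2 * ‖gs β (y * I)‖ₑ * ∫⁻ u in E, ‖P (u + y)‖ₑ * ‖w u‖ₑ := by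
          refine lintegral_congr fun y => ?_
          rw [lintegral_const_mul]
          have : Continuous fun u : ℝ => P (u + y) :=
            hP.comp (continuous_id.add (continuous_const (y := y)))
          exact this.enorm.measurable.mul hw.enorm.measurable
      _ ≤ ∫⁻ y in Ioc (-R) R, 2 * ‖gs β (y * I)‖ₑ * ENNReal.ofReal M := by
          refine setLIntegral_mono' measurableSet_Ioc fun y hy => ?_
          have := hHol y (abs_le.2 ⟨hy.1.le, hy.2⟩)
          gcongr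
      _ = 2 * (∫⁻ y in Ioc (-R) R, ‖gs β (y * I)‖ₑ) * ENNReal.ofReal M := by
          rw [lintegral_mul_const _ (by
            exact (hgc.enorm.measurable).const_mul 2), lintegral_const_mul _ hgc.enorm.measurable]
      _ ≤ 2 * 1 * ENNReal.ofReal M := by gcongr
      _ = ENNReal.ofReal (2 * M) := by
          rw [mul_one, ENNReal.ofReal_mul (by norm_num), ENNReal.ofReal_ofNat]
  by_cases hint : Integrable (fun u => ‖∫ y in (-R)..R, G u y * gx β ξ (y * I)‖ * ‖w u‖) (volume.restrict E)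
  · have h1 := ofReal_integral_eq_lintegral_ofReal hint
      (Filter.Eventually.of_forall fun u => by positivity)
    have h2 : ENNReal.ofReal (∫ u in E, ‖∫ y in (-R)..R, G u y * gx β ξ (y * I)‖ * ‖w u‖) ≤
        ENNReal.ofReal (2 * M) := by
      rw [h1]
      refine le_trans (le_of_eq ?_) hmain
      refine lintegral_congr fun u => ?_
      rw [ENNReal.ofReal_mul (norm_nonneg _), ofReal_norm, ofReal_norm]
    exact (ENNReal.ofReal_le_ofReal_iff (by positivity)).1 h2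
  · rw [integral_undef hint]
    positivity

theorem bx2 (h : T_BEX) : T_BX2 := by
  intro ι _ f Y d t₀ r D x₂ ε hY hr hr' hD hD1 hx₂ hx₂' hε
  obtain ⟨c, T₁, hc, hT₁⟩ := h ι f r D x₂ ε hr hr' hD hD1 hx₂ hx₂' hε
  refine ⟨c / 2, by positivity, fun β hβ => ?_⟩
  obtain ⟨ω, B₁, η, CY, hω, hCY⟩ := hY.main
  -- thresholds
  obtain ⟨T₂, hT₂⟩ : ∃ T₂ : ℝ, ∀ T : ℝ, T₂ ≤ T → 2 ≤ T ^ (c / 2) := by
    have h1 := (tendsto_rpow_atTop (show 0 < c / 2 by positivity)).eventually_ge_atTop 2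
    rw [Filter.eventually_atTop] at h1
    exact h1
  obtain ⟨T₃, hT₃⟩ : ∃ T₃ : ℝ, ∀ T : ℝ, T₃ ≤ T → max t₀ |CY| ≤ T - Real.log T := by
    have h1 : Filter.Tendsto (fun T : ℝ => T - Real.log T) Filter.atTop Filter.atTop := by
      have h2 : Filter.Tendsto (fun T : ℝ => T / 2) Filter.atTop Filter.atTop :=
        Filter.tendsto_id.atTop_div_const two_pos
      refine Filter.tendsto_atTop_mono' _ ?_ h2
      filter_upwards [Filter.eventually_ge_atTop 16] with T hT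
      have h3 : Real.log T = 2 * Real.log (Real.sqrt T) := by
        rw [Real.log_sqrt (by linarith)]; ring
      have h4 := Real.log_le_sub_one_of_pos (Real.sqrt_pos.2 (show (0 : ℝ) < T by linarith))
      have h5 : Real.sqrt T * Real.sqrt T = T := Real.mul_self_sqrt (by linarith)
      have h6 : 4 ≤ Real.sqrt T := by
        rw [show (4 : ℝ) = Real.sqrt 16 by
          rw [show (16 : ℝ) = 4 ^ 2 by norm_num, Real.sqrt_sq (by norm_num)]]
        exact Real.sqrt_le_sqrt hT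
      nlinarith
    have h2 := h1.eventually_ge_atTop (max t₀ |CY|)
    rw [Filter.eventually_atTop] at h2
    exact h2
  refine ⟨max (max T₁ T₂) (max T₃ 3), fun T hT j hj X ρ ξ hX hρ E hE hEs hvE => ?_⟩
  have hTT₁ : T₁ ≤ T := (le_max_left _ _).trans ((le_max_left _ _).trans hT)
  have hTT₂ : T₂ ≤ T := (le_max_right _ _).trans ((le_max_left _ _).trans hT)
  have hTT₃ : T₃ ≤ T := (le_max_left _ _).trans ((le_max_right _ _).trans hT)
  have hT3 : 3 ≤ T := (le_max_right _ _).trans ((le_max_right _ _).trans hT)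
  have hT0 : 0 < T := by linarith
  have hR1 : 1 ≤ Real.log T := by
    rw [Real.le_log_iff_exp_le hT0]
    have := Real.exp_one_lt_d9
    linarith
  have hTl := hT₃ T hTT₃
  have hPc : Continuous fun t : ℝ => Pj f j (1 / 2 + t * I) := by
    unfold Pj
    exact continuous_finsetProd _ fun l _ => B_continuous (f l) (j l)
  have hY2 : ∀ t : ℝ, T - Real.log T ≤ t → ‖Y (1 / 2 + t * I)‖ ≤ 2 := by
    intro t ht
    have h1 : max t₀ |CY| ≤ t := hTl.trans ht
    have h2 := hCY t ((le_max_left _ _).trans h1)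
    have ht1 : 1 ≤ t := hY.one_le.trans ((le_max_left _ _).trans h1)
    have h3 : CY / t ≤ 1 := by
      rw [div_le_one (by linarith)]
      exact (le_abs_self _).trans ((le_max_right _ _).trans h1)
    have h5 : ‖ω * cexp ((d * t * Real.log t + B₁ * t + η * Real.log t : ℝ) * I)‖ = 1 := by
      rw [norm_mul, hω, Complex.norm_exp_ofReal_mul_I, one_mul]
    have h6 := norm_le_norm_add_norm_sub' (Y (1 / 2 + t * I))
      (ω * cexp ((d * t * Real.log t + B₁ * t + η * Real.log t : ℝ) * I))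
    rw [h5] at h6
    linarith
  have hM0 : 0 ≤ T ^ (1 - c) := Real.rpow_nonneg hT0.le _
  have hb : ∀ y : ℝ, |y| ≤ Real.log T →
      ∫ u in E, ‖Pj f j (1 / 2 + (u + y : ℝ) * I)‖ * ‖TP X ρ u‖ ≤ T ^ (1 - c) := fun y hy =>
    hT₁ T hTT₁ j hj X ρ y hX hρ hy E hE hEs hvE
  have hfin : 2 * T ^ (1 - c) ≤ T ^ (1 - c / 2) := by
    have h1 : T ^ (1 - c / 2) = T ^ (1 - c) * T ^ (c / 2) := by
      rw [← Real.rpow_add hT0]
      congr 1
      ring
    rw [h1]
    have := hT₂ T hTT₂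
    nlinarith
  constructor
  · have h1 := gen (P := fun t : ℝ => Pj f j (1 / 2 + t * I)) (w := TP X ρ) hPc (continuous_TP X ρ) (ξ := ξ) hβ
      (by linarith) hM0 hE hEs hb
      (fun u y => Pj f j (1 / 2 + (u + y : ℝ) * I) * Y (1 / 2 + (u + y : ℝ) * I)) (by
        intro u hu y hy
        rw [norm_mul, mul_comm]
        have h2 : T - Real.log T ≤ u + y := by
          have := (hEs hu).1
          have := hy.1
          linarith
        have h3 := hY2 (u + y) h2
        gcongr)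
    exact h1.trans hfin
  · have h1 := gen (P := fun t : ℝ => Pj f j (1 / 2 + t * I)) (w := TP X ρ) hPc (continuous_TP X ρ) (ξ := ξ) hβ
      (by linarith) hM0 hE hEs hb
      (fun u y => (starRingEnd ℂ) (Pj f j (1 / 2 + (u + y : ℝ) * I))) (by
        intro u hu y hy
        rw [RCLike.norm_conj]
        have := norm_nonneg (Pj f j (1 / 2 + (u + y : ℝ) * I))
        show ‖Pj f j (1 / 2 + (u + y : ℝ) * I)‖ ≤ 2 * ‖Pj f j (1 / 2 + (u + y : ℝ) * I)‖
        linarith)
    exact h1.trans hfin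

end Pool.Agent.H85.DP.BX2
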