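import Pool.Agent.H25.DP.Targets2

/-!
# Two dilations: transfer of `AVH` along an equivalence of index types
-/

set_option autoImplicit false

open Complex MeasureTheory Set

namespace Pool.Agent.H85.DP

open Pool.Agent.H25.DL Pool.Agent.H25.DP

section

variable {ι ι' : Type} [Fintype ι] [Fintype ι']

lemma mem_mains (f : ι → Fac) (μ D T : ℝ) (j : ι → ℕ) :
    j ∈ mains f μ D T ↔ (∀ l, j l < ⌊D * Real.log T / (μ * Real.log 2)⌋₊ + 1) ∧
      ∑ l, (j l : ℝ) * (f l).r * Real.log 2 ≤ D * Real.log T := by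
  classical
  unfold mains
  rw [Finset.mem_filter]
  refine and_congr ?_ Iff.rfl
  rw [Fintype.mem_piFinset]
  simp only [Finset.mem_range]

lemma Pj_transfer (e : ι ≃ ι') (f : ι → Fac) (f' : ι' → Fac) (hf : ∀ l, f' (e l) = f l)
    (j : ι → ℕ) (s : ℂ) : Pj f' (fun l' => j (e.symm l')) s = Pj f j s := by
  unfold Pj
  rw [← Equiv.prod_comp e]
  refine Finset.prod_congr rfl fun l _ => ?_
  simp only [Equiv.symm_apply_apply, hf]

lemma AV_transfer (e : ι ≃ ι') (f : ι → Fac) (f' : ι' → Fac) (hf : ∀ l, f' (e l) = f l)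
    (Y : ℂ → ℂ) (j : ι → ℕ) (H W y : ℝ) :
    AV f' Y (fun l' => j (e.symm l')) H W y = AV f Y j H W y := by
  unfold AV
  simp_rw [Pj_transfer e f f' hf]

lemma mains_transfer (e : ι ≃ ι') (f : ι → Fac) (f' : ι' → Fac) (hf : ∀ l, f' (e l) = f l)
    (μ D T : ℝ) (j : ι → ℕ) :
    j ∈ mains f μ D T ↔ (fun l' => j (e.symm l')) ∈ mains f' μ D T := by
  rw [mem_mains, mem_mains]
  refine and_congr ?_ ?_
  · constructor
    · intro h l'
      exact h _
    · intro h l
      have := h (e l)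
      simpa using this
  · rw [← Equiv.sum_comp e (fun l' => ((j (e.symm l') : ℕ) : ℝ) * (f' l').r * Real.log 2)]
    simp only [Equiv.symm_apply_apply, hf]

lemma sum_transfer (e : ι ≃ ι') (f : ι → Fac) (f' : ι' → Fac) (hf : ∀ l, f' (e l) = f l)
    (Y : ℂ → ℂ) (μ D T H W y : ℝ) :
    ∑ j ∈ mains f' μ D T, AV f' Y j H W y = ∑ j ∈ mains f μ D T, AV f Y j H W y := by
  symm
  refine Finset.sum_equiv (Equiv.arrowCongr e (Equiv.refl ℕ)) ?_ ?_
  · intro j
    exact mains_transfer e f f' hf μ D T j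
  · intro j _
    exact (AV_transfer e f f' hf Y j H W y).symm

end

/-- (TRF) -/
theorem trf : T_TRF := by
  intro ι ι' _ _ e f f' Y μ d w hf h
  obtain ⟨D₁, hD₁, h1⟩ := h
  refine ⟨D₁, hD₁, fun D hD hD' => ?_⟩
  obtain ⟨T₀, hT₀⟩ := h1 D hD hD'
  refine ⟨T₀, fun T hT H W hw y hy => ?_⟩
  rw [sum_transfer e f f' hf]
  exact hT₀ T hT H W hw y hy

end Pool.Agent.H85.DP
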